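import Pool.Agent.Helper34.PU.Goals

/-!
# Packet HOST (MP_8060f4_co)
-/

set_option autoImplicit false

open Finset Function Filter Topology
open scoped Classical

namespace Pool.Agent.Helper6.PU

open Pool.Agent.Helper34.PU

theorem host (h1 : PrndStmt) (h2 : DensStmt) (h3 : NumTStmt) : HostStmt := by
  intro β s T0 r hs hsβ hr
  obtain ⟨T, Q, δ, η, hδ, hη, hη2, H⟩ := h2 β s T0 r hs hsβ hr
  obtain ⟨D0, hD0⟩ := h1 β (2 * T) T η hη
  refine ⟨T, Q, δ / 2 ^ (Fintype.card (Idx T0 β)), max D0 1, by positivity, ?_⟩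
  intro D hD
  have hDa : D0 ≤ D := le_trans (le_max_left _ _) hD
  have hDb : 0 < D := lt_of_lt_of_le Nat.one_pos (le_trans (le_max_right _ _) hD)
  obtain ⟨x, hPR, hCB⟩ := hD0 D hDa
  refine ⟨x, ?_, ?_⟩
  · intro J a hJ
    have h := hCB J a hJ
    have hp : (0 : ℝ) ≤ (D : ℝ) ^ (β + 1 - J.card) := by positivity
    have h' := (abs_le.1 h).2
    nlinarith
  · intro f hf
    obtain ⟨c, κ, q, hκ, hq, hd⟩ := H D x hDb hPR hCB f hf
    refine ⟨c, κ, q, hκ, hq, ?_⟩
    have hCB2 : CB β (1 / 2) x := by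
      intro J a hJ
      refine le_trans (hCB J a hJ) ?_
      have hp : (0 : ℝ) ≤ (D : ℝ) ^ (β + 1 - J.card) := by positivity
      nlinarith
    exact h3 β s T0 r T D Q δ x f c κ q hsβ hDb hCB2 hf hκ hq hd

end Pool.Agent.Helper6.PU
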