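import Pool.Agent.Helper34.PU.Goals

/-!
# Packet WEIGHT (MP_8060f4_co)
-/

set_option autoImplicit false

open Finset Function Filter Topology
open scoped Classical

namespace Pool.Agent.Helper6.PU

open Pool.Agent.Helper34.PU

theorem weight (h1 : ProcStmt) (h2 : NbwStmt) (h3 : MuStmt) : WeightStmt := by
  intro Δ θ hΔ hθ hq η hη
  have hΔ' : (3 : ℝ) ≤ (Δ : ℝ) := by exact_mod_cast hΔ
  have hθ1 : θ < 1 := by nlinarith
  have hq0 : 0 ≤ ((Δ : ℝ) - 1) * θ := by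
    apply mul_nonneg _ hθ.le
    linarith
  have hsq : 0 < 1 - θ ^ 2 := by nlinarith
  have h1θ : 0 < 1 + θ := by linarith
  have hR : 0 < 1 - (Δ : ℝ) * θ / (1 + θ) := by
    have : 1 - (Δ : ℝ) * θ / (1 + θ) = (1 - ((Δ : ℝ) - 1) * θ) / (1 + θ) := by
      field_simp
      ring
    rw [this]
    apply div_pos _ h1θ
    linarith
  have hlim : Tendsto (fun J : ℕ => (((Δ : ℝ) - 1) * θ) ^ J) atTop (𝓝 0) :=
    tendsto_pow_atTop_nhds_zero_of_lt_one hq0 hq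
  have hA : Tendsto (fun J : ℕ => 2 * (Δ : ℝ) * θ * (((Δ : ℝ) - 1) * θ) ^ J) atTop (𝓝 0) := by
    have := hlim.const_mul (2 * (Δ : ℝ) * θ)
    simpa using this
  have hB : Tendsto (fun J : ℕ => (Δ : ℝ) * θ ^ 2 *
      (2 * (Δ : ℝ) * θ * (((Δ : ℝ) - 1) * θ) ^ J) / (1 - θ ^ 2)) atTop (𝓝 0) := by
    have := (hA.const_mul ((Δ : ℝ) * θ ^ 2)).div_const (1 - θ ^ 2)
    simpa using this
  have e1 := hA.eventually (gt_mem_nhds hη)
  have e2 := hB.eventually (gt_mem_nhds hR)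
  obtain ⟨J, hJ1, hJ2⟩ := (e1.and e2).exists
  refine ⟨J, ?_⟩
  intro V _ H hMD
  have hex := fun u : V => h1 V H Δ θ hΔ hMD hθ hq.le J u
  choose M hM1 hM2 hM3 hM4 using hex
  set η1 : ℝ := 2 * (Δ : ℝ) * θ * (((Δ : ℝ) - 1) * θ) ^ J with hη1
  have hη10 : 0 ≤ η1 := by
    rw [hη1]
    have : (0 : ℝ) ≤ (((Δ : ℝ) - 1) * θ) ^ J := pow_nonneg hq0 J
    positivity
  have hcut : ∀ z, ∑ u, (M u).Cut z ≤ η1 := by
    intro z
    calc ∑ u, (M u).Cut z ≤ ∑ u, 2 * θ ^ (J + 1) * ∑ y ∈ nbr H u, nbw H J u y z :=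
          Finset.sum_le_sum fun u _ => hM4 u z
      _ = 2 * θ ^ (J + 1) * ∑ u, ∑ y ∈ nbr H u, nbw H J u y z := by
          rw [Finset.mul_sum]
      _ ≤ 2 * θ ^ (J + 1) * (Δ * ((Δ : ℝ) - 1) ^ J) := by
          apply mul_le_mul_of_nonneg_left (h2 V H Δ (by omega) hMD J z)
          positivity
      _ = η1 := by
          rw [hη1, mul_pow]
          ring
  obtain ⟨μ, hμ0, hμ1, hμ2⟩ := h3 V H Δ (2 * J + 2) θ η1 M hMD hθ hθ1 hη10 hJ2 hM1 hM2 hM3 hcut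
  refine ⟨M, μ, hM1, hμ0, hμ1, fun a b hab => ?_⟩
  obtain ⟨l, r⟩ := hμ2 a b hab
  refine ⟨le_trans ?_ l, r⟩
  have hc : 2 * θ / (1 + θ) ≤ 1 := by
    rw [div_le_one h1θ]
    linarith
  have hc0 : 0 ≤ 2 * θ / (1 + θ) := by positivity
  nlinarith

end Pool.Agent.Helper6.PU
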